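import Pool.Graph.R_seed8.Results.MP_188a10_nt.WeightedExceptional
import Pool.Graph.R_seed8.H398R2.BV1
import Pool.Agent.H564.LD.Noise

/-! Weighted sets of primes: definitions, transfer, and Bombieri's theorem. -/

set_option autoImplicit false

namespace Pool.Agent.H564.LD

open Finset Filter Topology

/-- the error term of the weights `w` on the primes `p ≤ y`, `p ≡ l mod d` -/
noncomputable def err (w : ℕ → ℝ) (y : ℝ) (d l : ℕ) : ℝ :=
  ∑ p ∈ (range (⌊y⌋₊ + 1)).filter (fun p : ℕ => p.Prime ∧ p ≡ l [MOD d]), w p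
    - (∫ t in (2 : ℝ)..y, 1 / Real.log t) / (Nat.totient d : ℝ)

/-- the statement `(∗)_α` with the constant `C₁` for the weights `w` -/
def Star (w : ℕ → ℝ) (α C₁ : ℝ) : Prop :=
  ∃ K : ℝ, ∃ N₀ : ℕ, ∀ N : ℕ, N₀ ≤ N → ∀ y : ℕ → ℝ, ∀ l : ℕ → ℕ,
    (∀ d : ℕ, 2 ≤ y d ∧ y d ≤ (N : ℝ)) → (∀ d : ℕ, Nat.Coprime (l d) d) →
    ∑ d ∈ (Icc (1 : ℕ) N).filter
        (fun d : ℕ => (d : ℝ) < (N : ℝ) ^ α / Real.log (N : ℝ) ^ C₁),
      ((ArithmeticFunction.moebius d : ℤ) : ℝ) ^ 2 * (3 : ℝ) ^ (Nat.primeFactors d).card *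
        |err w (y d) d (l d)| ≤ K * (N : ℝ) / Real.log (N : ℝ) ^ 3

/-- `α` is admissible for the weights `w` -/
def Admissible (w : ℕ → ℝ) (α : ℝ) : Prop := ∃ C₁ : ℝ, 0 < C₁ ∧ Star w α C₁

theorem err_cls (w : ℕ → ℝ) (y : ℝ) (d l : ℕ) : err w y d l =
    ∑ p ∈ cls (⌊y⌋₊ + 1) d l, w p - (∫ t in (2 : ℝ)..y, 1 / Real.log t) / (Nat.totient d : ℝ) := rfl

theorem err_sub (w v : ℕ → ℝ) (y : ℝ) (d l : ℕ) : err w y d l - err v y d l =
    ∑ p ∈ cls (⌊y⌋₊ + 1) d l, (w p - v p) := by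
  rw [err_cls, err_cls, sum_sub_distrib]
  ring

theorem moebius_sq_le (d : ℕ) : ((ArithmeticFunction.moebius d : ℤ) : ℝ) ^ 2 ≤ 1 := by
  by_cases h : Squarefree d
  · rw [ArithmeticFunction.moebius_apply_of_squarefree h]
    push_cast
    rw [← pow_mul, mul_comm, pow_mul]
    norm_num
  · rw [ArithmeticFunction.moebius_eq_zero_of_not_squarefree h]
    norm_num

theorem sum_inv_sqrt (D : ℕ) : ∑ d ∈ Icc 1 D, 1 / √(d : ℝ) ≤ 2 * √(D : ℝ) := by
  induction D with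
  | zero => simp
  | succ n ih =>
    rw [sum_Icc_succ_top (by omega)]
    have h1 : √((n : ℝ) + 1) ^ 2 = (n : ℝ) + 1 := Real.sq_sqrt (by positivity)
    have h2 : √(n : ℝ) ^ 2 = (n : ℝ) := Real.sq_sqrt (by positivity)
    have h3 : 0 < √((n : ℝ) + 1) := Real.sqrt_pos.2 (by positivity)
    have h4 : 0 ≤ √(n : ℝ) := Real.sqrt_nonneg _
    have h5 : 1 / √((n : ℝ) + 1) ≤ 2 * √((n : ℝ) + 1) - 2 * √(n : ℝ) := by
      rw [div_le_iff₀ h3]
      nlinarith [sq_nonneg (√((n : ℝ) + 1) - √(n : ℝ))]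
    push_cast
    linarith

/-- **The transfer.** -/
theorem transfer {w v : ℕ → ℝ} {κ α : ℝ} (hκ : 0 ≤ κ) (hα : 0 < α) (hακ : α < 1 - κ) {C₁ : ℝ}
    (hC : 0 < C₁)
    (h : ∀ ε : ℝ, 0 < ε → ∀ᶠ N : ℕ in atTop, ∀ n ≤ N + 1, ∀ d : ℕ, 1 ≤ d → d ≤ N → ∀ l : ℕ,
      |∑ p ∈ cls n d l, (w p - v p)| ≤
        (N : ℝ) ^ ε * (√((N : ℝ) ^ (1 + κ) / d) + (N : ℝ) ^ κ))
    (hv : Star v α C₁) : Star w α C₁ := by
  obtain ⟨K, N₀, hK⟩ := hv
  set e : ℝ := (1 - κ - α) / 8 with he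
  have he0 : 0 < e := by simp only [he]; linarith
  obtain ⟨c, hc0, hc⟩ := Pool.Agent.H398R2.BV.pow_omega_le 3 (by norm_num) e he0
  have hlog := (tendsto_natCast_atTop_atTop (R := ℝ)).eventually
    ((isLittleO_log_rpow_atTop (show 0 < e / 3 by positivity)).bound
      (show (0 : ℝ) < 1 by norm_num))
  have hbig := (tendsto_natCast_atTop_atTop (R := ℝ)).eventually
    ((tendsto_rpow_atTop he0).eventually_ge_atTop (3 * c))
  obtain ⟨N₁, hN₁⟩ := eventually_atTop.1 (((h e he0).and hlog).and hbig)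
  refine ⟨K + 1, max N₀ (max N₁ 3), fun N hN y l hy hl => ?_⟩
  have hN0 : N₀ ≤ N := (le_max_left _ _).trans hN
  have hN3 : 3 ≤ N := ((le_max_right _ _).trans (le_max_right _ _)).trans hN
  obtain ⟨⟨h1, h2⟩, h3⟩ := hN₁ N (((le_max_left _ _).trans (le_max_right _ _)).trans hN)
  have hNr : (3 : ℝ) ≤ N := by exact_mod_cast hN3
  have hNp : (0 : ℝ) < N := by linarith
  have hN1 : (1 : ℝ) ≤ N := by linarith
  have hl1 : 1 ≤ Real.log N :=
    Pool.Agent.Results.MP_188a10_nt.WeightedExceptional.log_ge_one hN3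
  rw [Real.norm_of_nonneg (by linarith), one_mul, Real.norm_of_nonneg (by positivity)] at h2
  have hold := hK N hN0 y l hy hl
  set F := (Icc (1 : ℕ) N).filter
    (fun d : ℕ => (d : ℝ) < (N : ℝ) ^ α / Real.log (N : ℝ) ^ C₁) with hF
  -- the moduli are small
  have hFD : F ⊆ Icc 1 ⌊(N : ℝ) ^ α⌋₊ := by
    intro d hd
    rw [hF, mem_filter, mem_Icc] at hd
    rw [mem_Icc]
    refine ⟨hd.1.1, Nat.le_floor (hd.2.le.trans ?_)⟩
    exact div_le_self (by positivity) (Real.one_le_rpow hl1 hC.le)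
  -- one term
  have hterm : ∀ d ∈ F, ((ArithmeticFunction.moebius d : ℤ) : ℝ) ^ 2 *
      (3 : ℝ) ^ (Nat.primeFactors d).card * |err w (y d) d (l d)| ≤
      ((ArithmeticFunction.moebius d : ℤ) : ℝ) ^ 2 * (3 : ℝ) ^ (Nat.primeFactors d).card *
        |err v (y d) d (l d)| +
      c * (N : ℝ) ^ (2 * e) * (√((N : ℝ) ^ (1 + κ)) * (1 / √(d : ℝ)) + (N : ℝ) ^ κ) := by
    intro d hd
    rw [hF, mem_filter, mem_Icc] at hd
    obtain ⟨⟨hd1, hdN⟩, _⟩ := hd
    have hd0 : (0 : ℝ) < d := by exact_mod_cast hd1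
    have hdN' : (d : ℝ) ≤ N := by exact_mod_cast hdN
    have hfl : ⌊y d⌋₊ + 1 ≤ N + 1 := by
      have h4 := Nat.floor_le_floor (hy d).2
      rw [Nat.floor_natCast] at h4
      omega
    have h4 := h1 (⌊y d⌋₊ + 1) hfl d hd1 hdN (l d)
    rw [← err_sub] at h4
    have h5 : |err w (y d) d (l d)| ≤ |err v (y d) d (l d)| +
        (N : ℝ) ^ e * (√((N : ℝ) ^ (1 + κ) / d) + (N : ℝ) ^ κ) := by
      have h6 := abs_add_le (err v (y d) d (l d)) (err w (y d) d (l d) - err v (y d) d (l d))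
      rw [add_sub_cancel] at h6
      linarith
    have hm0 : 0 ≤ ((ArithmeticFunction.moebius d : ℤ) : ℝ) ^ 2 := sq_nonneg _
    have hm1 := moebius_sq_le d
    have h3p : (0 : ℝ) < (3 : ℝ) ^ (Nat.primeFactors d).card := by positivity
    have hmm : ((ArithmeticFunction.moebius d : ℤ) : ℝ) ^ 2 * (3 : ℝ) ^ (Nat.primeFactors d).card ≤
        c * (N : ℝ) ^ e := by
      have h7 : (d : ℝ) ^ e ≤ (N : ℝ) ^ e := Real.rpow_le_rpow hd0.le hdN' he0.le
      calc _ ≤ 1 * (3 : ℝ) ^ (Nat.primeFactors d).card :=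
            mul_le_mul_of_nonneg_right hm1 h3p.le
        _ ≤ c * (d : ℝ) ^ e := by rw [one_mul]; exact hc d hd1
        _ ≤ _ := mul_le_mul_of_nonneg_left h7 hc0.le
    have e1 : √((N : ℝ) ^ (1 + κ) / d) = √((N : ℝ) ^ (1 + κ)) * (1 / √(d : ℝ)) := by
      rw [Real.sqrt_div (by positivity)]
      ring
    rw [e1] at h5
    have e2 : (N : ℝ) ^ (2 * e) = (N : ℝ) ^ e * (N : ℝ) ^ e := by
      rw [← Real.rpow_add hNp]
      congr 1
      ring
    have hS : 0 ≤ √((N : ℝ) ^ (1 + κ)) * (1 / √(d : ℝ)) + (N : ℝ) ^ κ := by positivity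
    calc _ ≤ ((ArithmeticFunction.moebius d : ℤ) : ℝ) ^ 2 * (3 : ℝ) ^ (Nat.primeFactors d).card *
          (|err v (y d) d (l d)| +
            (N : ℝ) ^ e * (√((N : ℝ) ^ (1 + κ)) * (1 / √(d : ℝ)) + (N : ℝ) ^ κ)) :=
          mul_le_mul_of_nonneg_left h5 (by positivity)
      _ = ((ArithmeticFunction.moebius d : ℤ) : ℝ) ^ 2 * (3 : ℝ) ^ (Nat.primeFactors d).card *
          |err v (y d) d (l d)| +
          (((ArithmeticFunction.moebius d : ℤ) : ℝ) ^ 2 * (3 : ℝ) ^ (Nat.primeFactors d).card) *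
          ((N : ℝ) ^ e * (√((N : ℝ) ^ (1 + κ)) * (1 / √(d : ℝ)) + (N : ℝ) ^ κ)) := by ring
      _ ≤ ((ArithmeticFunction.moebius d : ℤ) : ℝ) ^ 2 * (3 : ℝ) ^ (Nat.primeFactors d).card *
          |err v (y d) d (l d)| + (c * (N : ℝ) ^ e) *
          ((N : ℝ) ^ e * (√((N : ℝ) ^ (1 + κ)) * (1 / √(d : ℝ)) + (N : ℝ) ^ κ)) := by
          have := mul_le_mul_of_nonneg_right hmm
            (show 0 ≤ (N : ℝ) ^ e * (√((N : ℝ) ^ (1 + κ)) * (1 / √(d : ℝ)) + (N : ℝ) ^ κ) by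
              positivity)
          linarith
      _ = _ := by rw [e2]; ring
  refine (sum_le_sum hterm).trans ?_
  rw [sum_add_distrib]
  -- the sum of the differences
  set D : ℕ := ⌊(N : ℝ) ^ α⌋₊ with hD
  have hDα : (D : ℝ) ≤ (N : ℝ) ^ α := Nat.floor_le (by positivity)
  have hsum : ∑ d ∈ F, c * (N : ℝ) ^ (2 * e) *
      (√((N : ℝ) ^ (1 + κ)) * (1 / √(d : ℝ)) + (N : ℝ) ^ κ) ≤
      c * (N : ℝ) ^ (2 * e) * (√((N : ℝ) ^ (1 + κ)) * (2 * √((N : ℝ) ^ α)) +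
        (N : ℝ) ^ α * (N : ℝ) ^ κ) := by
    rw [← mul_sum]
    refine mul_le_mul_of_nonneg_left ?_ (by positivity)
    calc ∑ d ∈ F, (√((N : ℝ) ^ (1 + κ)) * (1 / √(d : ℝ)) + (N : ℝ) ^ κ) ≤
          ∑ d ∈ Icc 1 D, (√((N : ℝ) ^ (1 + κ)) * (1 / √(d : ℝ)) + (N : ℝ) ^ κ) :=
          sum_le_sum_of_subset_of_nonneg hFD fun d _ _ => by positivity
      _ = √((N : ℝ) ^ (1 + κ)) * ∑ d ∈ Icc 1 D, 1 / √(d : ℝ) + D * (N : ℝ) ^ κ := by
          rw [sum_add_distrib, ← mul_sum, sum_const, Nat.card_Icc, nsmul_eq_mul]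
          simp
      _ ≤ _ := by
          have h8 := sum_inv_sqrt D
          have h9 : √(D : ℝ) ≤ √((N : ℝ) ^ α) := Real.sqrt_le_sqrt hDα
          gcongr
          linarith
  have hs1 : √((N : ℝ) ^ (1 + κ)) * √((N : ℝ) ^ α) ≤ (N : ℝ) ^ (1 - 4 * e) := by
    rw [← Real.sqrt_mul (by positivity), ← Real.rpow_add hNp, Real.sqrt_eq_rpow,
      ← Real.rpow_mul hNp.le]
    exact Real.rpow_le_rpow_of_exponent_le hN1 (by simp only [he]; linarith)
  have hs2 : (N : ℝ) ^ α * (N : ℝ) ^ κ ≤ (N : ℝ) ^ (1 - 4 * e) := by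
    rw [← Real.rpow_add hNp]
    exact Real.rpow_le_rpow_of_exponent_le hN1 (by simp only [he]; linarith)
  have hfin : c * (N : ℝ) ^ (2 * e) * (√((N : ℝ) ^ (1 + κ)) * (2 * √((N : ℝ) ^ α)) +
        (N : ℝ) ^ α * (N : ℝ) ^ κ) ≤ N / Real.log N ^ 3 := by
    have h10 : c * (N : ℝ) ^ (2 * e) * (√((N : ℝ) ^ (1 + κ)) * (2 * √((N : ℝ) ^ α)) +
        (N : ℝ) ^ α * (N : ℝ) ^ κ) ≤ 3 * c * ((N : ℝ) ^ (2 * e) * (N : ℝ) ^ (1 - 4 * e)) := by
      have : 0 ≤ c * (N : ℝ) ^ (2 * e) := by positivity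
      nlinarith
    have e3 : (N : ℝ) ^ (2 * e) * (N : ℝ) ^ (1 - 4 * e) = (N : ℝ) ^ (1 - 2 * e) := by
      rw [← Real.rpow_add hNp]
      congr 1
      ring
    rw [e3] at h10
    have h11 : 3 * c * (N : ℝ) ^ (1 - 2 * e) ≤ (N : ℝ) ^ (1 - e) := by
      have e4 : (N : ℝ) ^ (1 - e) = (N : ℝ) ^ e * (N : ℝ) ^ (1 - 2 * e) := by
        rw [← Real.rpow_add hNp]
        congr 1
        ring
      rw [e4]
      exact mul_le_mul_of_nonneg_right h3 (by positivity)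
    have h12 : (N : ℝ) ^ (1 - e) ≤ N / Real.log N ^ 3 := by
      rw [le_div_iff₀ (by positivity)]
      have h13 : Real.log N ^ 3 ≤ (N : ℝ) ^ e := by
        calc Real.log N ^ 3 ≤ ((N : ℝ) ^ (e / 3)) ^ 3 := pow_le_pow_left₀ (by linarith) h2 3
          _ = (N : ℝ) ^ e := by
              rw [← Real.rpow_natCast, ← Real.rpow_mul hNp.le]
              congr 1
              push_cast
              ring
      calc (N : ℝ) ^ (1 - e) * Real.log N ^ 3 ≤ (N : ℝ) ^ (1 - e) * (N : ℝ) ^ e :=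
            mul_le_mul_of_nonneg_left h13 (by positivity)
        _ = N := by
            rw [← Real.rpow_add hNp]
            rw [show 1 - e + e = 1 by ring, Real.rpow_one]
    linarith
  have e5 : (K + 1) * (N : ℝ) / Real.log N ^ 3 = K * N / Real.log N ^ 3 + N / Real.log N ^ 3 := by
    ring
  rw [e5]
  exact add_le_add hold (hsum.trans hfin)

theorem transfer_iff {w v : ℕ → ℝ} {κ α : ℝ} (hκ : 0 ≤ κ) (hα : 0 < α) (hακ : α < 1 - κ)
    (h : ∀ ε : ℝ, 0 < ε → ∀ᶠ N : ℕ in atTop, ∀ n ≤ N + 1, ∀ d : ℕ, 1 ≤ d → d ≤ N → ∀ l : ℕ,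
      |∑ p ∈ cls n d l, (w p - v p)| ≤
        (N : ℝ) ^ ε * (√((N : ℝ) ^ (1 + κ) / d) + (N : ℝ) ^ κ)) :
    Admissible w α ↔ Admissible v α := by
  constructor
  · rintro ⟨C₁, hC, hS⟩
    refine ⟨C₁, hC, transfer hκ hα hακ hC (fun ε hε => ?_) hS⟩
    filter_upwards [h ε hε] with N hN n hn d hd1 hdN l
    have h1 := hN n hn d hd1 hdN l
    rw [← abs_neg, ← sum_neg_distrib] at h1
    simpa only [neg_sub] using h1
  · rintro ⟨C₁, hC, hS⟩
    exact ⟨C₁, hC, transfer hκ hα hακ hC h hS⟩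

/-- **Bombieri's theorem** (from the library). -/
theorem bombieri {α : ℝ} (hα : 0 < α) (hα2 : α ≤ 1 / 2) : Admissible (fun _ => 1) α := by
  obtain ⟨B, C, hBC⟩ := Pool.Agent.Results.MP_188a10_nt.WeightedExceptional.result 3 (by norm_num) 3
  refine ⟨(B : ℝ) + 1, by positivity, C, 3, fun N hN y l hy hl => ?_⟩
  have hNr : (3 : ℝ) ≤ N := by exact_mod_cast hN
  have hNp : (0 : ℝ) < N := by linarith
  have hN1 : (1 : ℝ) ≤ N := by linarith
  have hl1 : 1 ≤ Real.log N :=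
    Pool.Agent.Results.MP_188a10_nt.WeightedExceptional.log_ge_one hN
  obtain ⟨_, h2⟩ := hBC N hN
  set Q : ℝ := (N : ℝ) ^ α / Real.log (N : ℝ) ^ ((B : ℝ) + 1) with hQ
  set D : ℕ := ⌊Q⌋₊ with hD
  have hQ0 : 0 ≤ Q := by rw [hQ]; positivity
  have hDQ : (D : ℝ) ≤ Q := Nat.floor_le hQ0
  have hlB : Real.log (N : ℝ) ^ ((B : ℝ) + 1) = Real.log (N : ℝ) ^ (B + 1) := by
    rw [← Real.rpow_natCast]
    congr 1
    push_cast
    ring
  have hsq : (N : ℝ) ^ α ≤ √(N : ℝ) := by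
    rw [Real.sqrt_eq_rpow]
    exact Real.rpow_le_rpow_of_exponent_le hN1 hα2
  have hsq2 : √(N : ℝ) ^ 2 = N := Real.sq_sqrt hNp.le
  have hs1 : 1 ≤ √(N : ℝ) := by rw [Real.one_le_sqrt]; exact hN1
  have hlB1 : Real.log (N : ℝ) ^ B ≤ Real.log (N : ℝ) ^ (B + 1) :=
    pow_le_pow_right₀ hl1 (by omega)
  have hlB0 : 1 ≤ Real.log (N : ℝ) ^ B := one_le_pow₀ hl1
  have hQ1 : Q ≤ √(N : ℝ) / Real.log (N : ℝ) ^ (B + 1) := by
    rw [hQ, hlB]
    gcongr
  have hD1 : (D : ℝ) ≤ N / Real.log N ^ B := by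
    refine hDQ.trans (hQ1.trans ?_)
    refine div_le_div₀ hNp.le ?_ (by linarith) hlB1
    nlinarith
  have hD2 : (D : ℝ) ^ 2 ≤ 1 * N / Real.log N ^ B := by
    have h3 : (D : ℝ) ^ 2 ≤ (√(N : ℝ) / Real.log (N : ℝ) ^ (B + 1)) ^ 2 :=
      pow_le_pow_left₀ (by positivity) (hDQ.trans hQ1) 2
    refine h3.trans ?_
    rw [div_pow, hsq2, one_mul]
    refine div_le_div_of_nonneg_left hNp.le (by linarith) ?_
    nlinarith
  set L : (d : ℕ) → Finset (ZMod d)ˣ := fun d => {ZMod.unitOfCoprime (l d) (hl d)} with hL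
  have h4 := h2 1 le_rfl D hD1 hD2 L (fun d => by simp [hL])
  rw [one_mul] at h4
  have h5 : C * (N / Real.log N ^ 3) = C * N / Real.log N ^ 3 := by ring
  rw [h5] at h4
  refine le_trans ?_ h4
  have hsub : (Icc (1 : ℕ) N).filter (fun d : ℕ => (d : ℝ) < Q) ⊆ Icc 1 D := by
    intro d hd
    rw [mem_filter, mem_Icc] at hd
    rw [mem_Icc]
    exact ⟨hd.1.1, Nat.le_floor hd.2.le⟩
  have hEM0 : ∀ d ∈ Icc 1 D, 0 ≤ (3 : ℝ) ^ (Pool.Agent.Results.MP_188a10_nt.WeightedExceptional.nuD d) *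
      ∑ l ∈ L d, Pool.Agent.Results.MP_188a10_nt.WeightedExceptional.EMax N d l := by
    intro d _
    refine mul_nonneg (by positivity) (sum_nonneg fun l _ => ?_)
    exact Real.iSup_nonneg fun y => abs_nonneg _
  refine le_trans (sum_le_sum fun d hd => ?_) (sum_le_sum_of_subset_of_nonneg hsub
    fun d hd _ => hEM0 d hd)
  rw [mem_filter, mem_Icc] at hd
  obtain ⟨⟨hd1, hdN⟩, _⟩ := hd
  have hnu : Pool.Agent.Results.MP_188a10_nt.WeightedExceptional.nuD d = (Nat.primeFactors d).card := rfl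
  rw [hnu]
  have h6 : |err (fun _ => 1) (y d) d (l d)| ≤
      ∑ l ∈ L d, Pool.Agent.Results.MP_188a10_nt.WeightedExceptional.EMax N d l := by
    simp only [hL, sum_singleton]
    unfold Pool.Agent.Results.MP_188a10_nt.WeightedExceptional.EMax
    have hcard : ∀ z : ℝ, (((Pool.Agent.Results.MP_188a10_nt.WeightedExceptional.primesAP z d
        ((ZMod.unitOfCoprime (l d) (hl d) : (ZMod d)ˣ) : ZMod d)) : ℕ) : ℝ) =
        ∑ p ∈ (range (⌊z⌋₊ + 1)).filter (fun p : ℕ => p.Prime ∧ p ≡ l d [MOD d]), (1 : ℝ) := by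
      intro z
      unfold Pool.Agent.Results.MP_188a10_nt.WeightedExceptional.primesAP
      rw [sum_const, nsmul_eq_mul, mul_one]
      congr 2
      ext p
      rw [mem_filter, mem_filter, mem_Icc, mem_range, ZMod.coe_unitOfCoprime,
        ZMod.natCast_eq_natCast_iff]
      constructor
      · rintro ⟨a, b⟩
        exact ⟨by omega, b⟩
      · rintro ⟨a, b⟩
        exact ⟨⟨b.1.one_le, by omega⟩, b⟩
    have hbdd : BddAbove (Set.range fun z : Set.Icc (2 : ℝ) N =>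
        |((Pool.Agent.Results.MP_188a10_nt.WeightedExceptional.primesAP z d
        ((ZMod.unitOfCoprime (l d) (hl d) : (ZMod d)ˣ) : ZMod d) : ℕ) : ℝ) -
          Pool.Agent.Results.MP_188a10_nt.WeightedExceptional.li z / (Nat.totient d : ℝ)|) := by
      refine ⟨(N : ℝ) + 1 + 2 * N, ?_⟩
      rintro _ ⟨⟨z, hz2, hzN⟩, rfl⟩
      simp only
      have hφ : (1 : ℝ) ≤ Nat.totient d := by exact_mod_cast Nat.totient_pos.mpr (by omega)
      have hfl : ⌊z⌋₊ ≤ N := by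
        have h4 := Nat.floor_le_floor hzN
        rwa [Nat.floor_natCast] at h4
      have b1 : (((Pool.Agent.Results.MP_188a10_nt.WeightedExceptional.primesAP z d
        ((ZMod.unitOfCoprime (l d) (hl d) : (ZMod d)ˣ) : ZMod d)) : ℕ) : ℝ) ≤ (N : ℝ) + 1 := by
        unfold Pool.Agent.Results.MP_188a10_nt.WeightedExceptional.primesAP
        have : (((Icc 1 ⌊z⌋₊).filter (fun p : ℕ => p.Prime ∧ (p : ZMod d) =
          ((ZMod.unitOfCoprime (l d) (hl d) : (ZMod d)ˣ) : ZMod d))).card) ≤ N + 1 := by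
          refine (card_filter_le _ _).trans ?_
          rw [Nat.card_Icc]
          omega
        exact_mod_cast this
      have b0 : (0 : ℝ) ≤ (((Pool.Agent.Results.MP_188a10_nt.WeightedExceptional.primesAP z d
        ((ZMod.unitOfCoprime (l d) (hl d) : (ZMod d)ˣ) : ZMod d)) : ℕ) : ℝ) := Nat.cast_nonneg _
      have c0 : 0 ≤ Pool.Agent.Results.MP_188a10_nt.WeightedExceptional.li z := by
        apply intervalIntegral.integral_nonneg hz2
        intro t ht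
        have : 0 < Real.log t := Real.log_pos (by linarith [ht.1])
        positivity
      have c1 : Pool.Agent.Results.MP_188a10_nt.WeightedExceptional.li z ≤ 2 * N := by
        have h := intervalIntegral.norm_integral_le_of_norm_le_const (a := (2 : ℝ)) (b := z)
          (f := fun t => 1 / Real.log t) (C := 2) (by
            intro t ht
            rw [Set.uIoc_of_le hz2] at ht
            have h3 : Real.log 2 ≤ Real.log t := Real.log_le_log (by norm_num) ht.1.le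
            have := Real.log_two_gt_d9
            rw [Real.norm_eq_abs, abs_of_pos (by
              have : 0 < Real.log t := by linarith
              positivity), div_le_iff₀ (by linarith)]
            linarith)
        have h' : Pool.Agent.Results.MP_188a10_nt.WeightedExceptional.li z ≤ 2 * |z - 2| :=
          (le_abs_self _).trans h
        rw [abs_of_nonneg (by linarith)] at h'
        linarith
      have c2 : Pool.Agent.Results.MP_188a10_nt.WeightedExceptional.li z / (Nat.totient d : ℝ) ≤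
          2 * N := (div_le_self c0 hφ).trans c1
      have c3 : 0 ≤ Pool.Agent.Results.MP_188a10_nt.WeightedExceptional.li z /
        (Nat.totient d : ℝ) := by positivity
      rw [abs_le]
      constructor <;> linarith
    have h7 := le_ciSup hbdd ⟨y d, hy d⟩
    simp only at h7
    rw [hcard] at h7
    exact h7
  have hm1 := moebius_sq_le d
  calc ((ArithmeticFunction.moebius d : ℤ) : ℝ) ^ 2 * (3 : ℝ) ^ (Nat.primeFactors d).card *
        |err (fun _ => 1) (y d) d (l d)| ≤ 1 * (3 : ℝ) ^ (Nat.primeFactors d).card *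
        |err (fun _ => 1) (y d) d (l d)| := by gcongr
    _ = (3 : ℝ) ^ (Nat.primeFactors d).card * |err (fun _ => 1) (y d) d (l d)| := by ring
    _ ≤ _ := mul_le_mul_of_nonneg_left h6 (by positivity)

end Pool.Agent.H564.LD
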