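import Pool.Agent.H564.LD.Opt
import Pool.Agent.H564.SC.Exist

/-! Random samples of the primes and the level of distribution. -/

set_option autoImplicit false

namespace Pool.Agent.H564.LD

open Filter Topology MeasureTheory ProbabilityTheory Classical
open Pool.Agent.H564.BSD (wt)
open Pool.Agent.H564.SP (Dens)

/-- `w` uses at most `N^(1-κ+ε)` primes up to `N`; it is admissible for `α < 1 - κ` exactly if the primes are, in
particular for `α ≤ 1/2`, `α < 1 - κ`; and it is not admissible for `α > 1 - κ` -/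
def Inherits (w : ℕ → ℝ) (κ : ℝ) : Prop :=
  (∀ ε : ℝ, 0 < ε → ∀ᶠ N : ℕ in atTop, ((used w N).card : ℝ) ≤ (N : ℝ) ^ (1 - κ + ε)) ∧
  (∀ α : ℝ, 0 < α → α < 1 - κ → (Admissible w α ↔ Admissible (fun _ => 1) α)) ∧
  (∀ α : ℝ, 0 < α → α < 1 - κ → α ≤ 1 / 2 → Admissible w α) ∧
  (∀ α : ℝ, 1 - κ < α → α ≤ 1 → ¬ Admissible w α)

variable {Ω : Type*} [mΩ : MeasurableSpace Ω] {μ : Measure Ω} [IsProbabilityMeasure μ]
  {A : ℕ → Set Ω} {δ : ℕ → ℝ} {κ : ℝ}

theorem almost_surely (hA : ∀ p, MeasurableSet (A p)) (hind : iIndepSet A μ)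
    (hδ0 : ∀ p, 0 < δ p) (hμ : ∀ p, μ (A p) = ENNReal.ofReal (δ p))
    (hκ0 : 0 ≤ κ) (hκ1 : κ < 1)
    (hd : ∀ ε : ℝ, 0 < ε → ∀ᶠ p : ℕ in atTop, p.Prime →
      (p : ℝ) ^ (-κ - ε) ≤ δ p ∧ δ p ≤ (p : ℝ) ^ (-κ + ε)) :
    ∀ᵐ ω ∂μ, Inherits (fun p => if ω ∈ A p then 1 / δ p else 0) κ := by
  have hδ1 : ∀ p, δ p ≤ 1 := by
    intro p
    have h1 : μ (A p) ≤ 1 := prob_le_one
    rw [hμ p, ENNReal.ofReal_le_one] at h1
    exact h1
  set η : ℝ := κ / 2 with hη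
  have hκη : κ = 2 * η := by rw [hη]; ring
  have hη0 : 0 ≤ η := by rw [hη]; linarith
  have hη1 : η < 1 / 2 := by rw [hη]; linarith
  have hd' : Dens δ η := by
    intro ε hε
    filter_upwards [hd ε hε] with p hp h
    rw [← hκη]
    exact hp h
  filter_upwards [Pool.Agent.H564.SP.count_up hA hind hδ0 hδ1 hμ hη0 hη1 hd',
    noise_cls hA hind hδ0 hδ1 hμ hη0 hd'] with ω h1 h2
  have e : (fun p => if ω ∈ A p then 1 / δ p else 0) = wt A δ ω := rfl
  rw [e]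
  have hcount : ∀ ε : ℝ, 0 < ε → ∀ᶠ N : ℕ in atTop,
      ((used (wt A δ ω) N).card : ℝ) ≤ (N : ℝ) ^ (1 - κ + ε) := by
    intro ε hε
    filter_upwards [tendsto_natCast_atTop_atTop.eventually (h1 ε hε)] with N hN
    rw [Nat.floor_natCast, ← hκη] at hN
    refine le_trans ?_ hN
    have : used (wt A δ ω) N ⊆ (Finset.range (N + 1)).filter fun p => p.Prime ∧ ω ∈ A p := by
      intro p hp
      rw [used, Finset.mem_filter, Finset.mem_Icc] at hp
      rw [Finset.mem_filter, Finset.mem_range]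
      refine ⟨by omega, hp.2.1, ?_⟩
      by_contra h
      apply hp.2.2
      unfold wt
      rw [if_neg h]
    exact_mod_cast Finset.card_le_card this
  have htr : ∀ α : ℝ, 0 < α → α < 1 - κ →
      (Admissible (wt A δ ω) α ↔ Admissible (fun _ => 1) α) := by
    intro α hα hα1
    refine transfer_iff hκ0 hα hα1 fun ε hε => ?_
    have := h2 ε hε
    rw [← hκη] at this
    exact this
  refine ⟨hcount, htr, fun α hα hα1 hα2 => (htr α hα hα1).2 (bombieri hα hα2), ?_⟩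
  intro α hα hα1 hcon
  set ε : ℝ := (α - (1 - κ)) / 4 with hε
  have hε0 : 0 < ε := by rw [hε]; linarith
  have h3 := optimal_rpow (by linarith) hα1 hcon hε0
  obtain ⟨N, h4, h5, hN⟩ := (h3.and ((hcount ε hε0).and (eventually_ge_atTop 2))).exists
  have h6 := h4.trans h5
  have hN2 : (1 : ℝ) < N := by exact_mod_cast hN
  have h7 := (Real.rpow_le_rpow_left_iff hN2).1 h6
  rw [hε] at h7
  linarith

theorem exists_weight {κ : ℝ} (hκ0 : 0 ≤ κ) (hκ1 : κ < 1) :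
    ∃ w : ℕ → ℝ, (∀ p, 0 ≤ w p) ∧ Inherits w κ := by
  have h0 : (0 : ℝ) ≤ κ / 2 := by linarith
  have h := almost_surely (μ := Pool.Agent.H564.SC.prodm) (κ := κ)
    (Pool.Agent.H564.SC.ev_meas (Pool.Agent.H564.SC.del (κ / 2)))
    (Pool.Agent.H564.SC.ev_indep (fun p => (Pool.Agent.H564.SC.del_pos (κ / 2) p).le)
      (Pool.Agent.H564.SC.del_le h0))
    (Pool.Agent.H564.SC.del_pos (κ / 2))
    (Pool.Agent.H564.SC.ev_prob (fun p => (Pool.Agent.H564.SC.del_pos (κ / 2) p).le)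
      (Pool.Agent.H564.SC.del_le h0)) hκ0 hκ1 (by
        intro ε hε
        have h1 := Pool.Agent.H564.SC.del_dens (κ / 2) ε hε
        rw [show 2 * (κ / 2) = κ by ring] at h1
        exact h1)
  obtain ⟨ω, hω⟩ := h.exists
  refine ⟨_, fun p => ?_, hω⟩
  split_ifs
  · exact (one_div_pos.2 (Pool.Agent.H564.SC.del_pos (κ / 2) p)).le
  · exact le_rfl

theorem smallest {α : ℝ} (hα0 : 0 < α) (hα1 : α < 1) (h : Admissible (fun _ => 1) α) {ε : ℝ}
    (hε : 0 < ε) : ∃ w : ℕ → ℝ, (∀ p, 0 ≤ w p) ∧ Admissible w α ∧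
      ∀ᶠ N : ℕ in atTop, ((used w N).card : ℝ) ≤ (N : ℝ) ^ (α + ε) := by
  set κ : ℝ := max 0 (1 - α - ε / 2) with hκ
  have hκ0 : 0 ≤ κ := le_max_left _ _
  have hκ1 : κ < 1 - α := max_lt (by linarith) (by linarith)
  have hκ2 : 1 - α - ε / 2 ≤ κ := le_max_right _ _
  obtain ⟨w, hw0, hw1, hw2, _, _⟩ := exists_weight hκ0 (by linarith : κ < 1)
  refine ⟨w, hw0, (hw2 α hα0 (by linarith)).2 h, ?_⟩
  filter_upwards [hw1 (ε / 2) (by positivity), eventually_ge_atTop 1] with N hN hN1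
  refine hN.trans ?_
  exact Real.rpow_le_rpow_of_exponent_le (by exact_mod_cast hN1) (by linarith)

end Pool.Agent.H564.LD
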