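import Pool.Agent.H564.LD.Det

/-! Optimality: a set of primes of level `α` has at least `N^(α-ε)` elements up to `N`. -/

set_option autoImplicit false

namespace Pool.Agent.H564.LD

open Finset Filter Topology

theorem pi_lower {n : ℕ} (h4 : 64 ≤ n) :
    (n : ℝ) / 2 / Real.log n ≤ (((Icc 1 n).filter Nat.Prime).card : ℝ) := by
  have hn : (64 : ℝ) ≤ n := by exact_mod_cast h4
  have hn0 : (0 : ℝ) < n := by linarith
  have hlog : 0 < Real.log n := Real.log_pos (by linarith)
  have h5 := Chebyshev.pi_ge n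
  have h6 : (Nat.primeCounting n : ℝ) = (((Icc 1 n).filter Nat.Prime).card : ℝ) := by
    have e1 : Nat.primeCounting n = ((range (n + 1)).filter Nat.Prime).card := by
      rw [Nat.primeCounting, Nat.primeCounting', Nat.count_eq_card_filter_range]
    rw [e1]
    congr 2
    ext p
    rw [mem_filter, mem_filter, mem_range, mem_Icc]
    constructor
    · rintro ⟨a, b⟩
      exact ⟨⟨b.one_le, by omega⟩, b⟩
    · rintro ⟨a, b⟩
      exact ⟨by omega, b⟩
  have hl2 : (0.6931471803 : ℝ) < Real.log 2 := Real.log_two_gt_d9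
  have h7 : Real.log ((n : ℝ) + 1) ≤ (n : ℝ) / 8 := by
    have a1 : Real.log ((n : ℝ) + 1) ≤ Real.log (2 * n) := Real.log_le_log (by linarith) (by linarith)
    rw [Real.log_mul (by norm_num) hn0.ne'] at a1
    have a3 : Real.log 2 < 0.6931471808 := Real.log_two_lt_d9
    have a4 := Real.log_le_sub_one_of_pos (show 0 < (n : ℝ) / 16 by positivity)
    rw [Real.log_div hn0.ne' (by norm_num)] at a4
    have a5 : Real.log 16 = 4 * Real.log 2 := by
      rw [show (16 : ℝ) = 2 ^ 4 by norm_num, Real.log_pow]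
      norm_num
    rw [a5] at a4
    nlinarith
  have h8 : (n : ℝ) / 2 ≤ (n : ℝ) * Real.log 2 - Real.log ((n : ℝ) + 1) := by nlinarith
  rw [← h6]
  exact (div_le_div_of_nonneg_right h8 hlog.le).trans h5

theorem li_lower {N : ℕ} (hN : 4 ≤ N) :
    (N : ℝ) / 2 / Real.log N ≤ ∫ t in (2 : ℝ)..(N : ℝ), 1 / Real.log t := by
  have hn : (4 : ℝ) ≤ N := by exact_mod_cast hN
  have hlog : 0 < Real.log N := Real.log_pos (by linarith)
  have hint : IntervalIntegrable (fun t => 1 / Real.log t) MeasureTheory.volume 2 N := by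
    apply ContinuousOn.intervalIntegrable
    intro t ht
    rw [Set.uIcc_of_le (by linarith)] at ht
    have hl : Real.log t ≠ 0 := (Real.log_pos (by linarith [ht.1])).ne'
    have h1 : ContinuousAt (fun t => 1 / Real.log t) t :=
      continuousAt_const.div (Real.continuousAt_log (by linarith [ht.1])) hl
    exact h1.continuousWithinAt
  have h1 : ∫ t in (2 : ℝ)..(N : ℝ), 1 / Real.log N ≤ ∫ t in (2 : ℝ)..(N : ℝ), 1 / Real.log t := by
    refine intervalIntegral.integral_mono_on (by linarith) intervalIntegrable_const hint ?_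
    intro t ht
    have h2 : 0 < Real.log t := Real.log_pos (by linarith [ht.1])
    exact one_div_le_one_div_of_le h2 (Real.log_le_log (by linarith [ht.1]) ht.2)
  rw [intervalIntegral.integral_const, smul_eq_mul] at h1
  refine le_trans ?_ h1
  rw [div_div, div_le_iff₀ (by positivity)]
  have : ((N : ℝ) - 2) * (1 / Real.log N) * (2 * Real.log N) = 2 * (N - 2) := by field_simp
  rw [this]
  linarith

/-- the used primes -/
noncomputable def used (w : ℕ → ℝ) (N : ℕ) : Finset ℕ :=
  (Icc 1 N).filter fun p => p.Prime ∧ w p ≠ 0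

theorem missing {w : ℕ → ℝ} {N d : ℕ} (hd : d.Prime) (h : (used w N).card < d - 1) :
    ∃ l : ℕ, Nat.Coprime l d ∧
      err w N d l = -((∫ t in (2 : ℝ)..(N : ℝ), 1 / Real.log t) / (Nat.totient d : ℝ)) := by
  have h1 : ((used w N).image (· % d)).card <
      ((range d).filter (Nat.Coprime d)).card := by
    rw [← Nat.totient_eq_card_coprime, Nat.totient_prime hd]
    exact card_image_le.trans_lt h
  obtain ⟨l, hl, hl2⟩ := exists_mem_notMem_of_card_lt_card h1
  rw [mem_filter, mem_range] at hl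
  refine ⟨l, hl.2.symm, ?_⟩
  unfold err
  rw [sum_eq_zero, zero_sub]
  intro p hp
  rw [mem_filter, mem_range, Nat.floor_natCast] at hp
  by_contra hw
  apply hl2
  rw [mem_image]
  refine ⟨p, ?_, ?_⟩
  · rw [used, mem_filter, mem_Icc]
    exact ⟨⟨hp.2.1.one_le, by omega⟩, hp.2.1, hw⟩
  · have := hp.2.2
    rw [Nat.ModEq, Nat.mod_eq_of_lt hl.1] at this
    exact this

/-- **Optimality.** -/
theorem optimal {w : ℕ → ℝ} {α C₁ : ℝ} (hα0 : 0 < α) (hα1 : α ≤ 1) (hC₁ : 0 < C₁)
    (h : Star w α C₁) : ∀ᶠ N : ℕ in atTop,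
      (N : ℝ) ^ α / (32 * Real.log N ^ (C₁ + 1)) ≤ ((used w N).card : ℝ) := by
  obtain ⟨K, N₀, hK⟩ := h
  have t := tendsto_natCast_atTop_atTop (R := ℝ)
  have hlog := t.eventually ((isLittleO_log_rpow_atTop (show 0 < α / (2 * C₁) by positivity)).bound
      (show (0 : ℝ) < 1 by norm_num))
  have hlog2 := t.eventually ((isLittleO_log_rpow_atTop (show 0 < α / 4 by positivity)).bound
      (show (0 : ℝ) < 1 by norm_num))
  have hb1 := t.eventually ((tendsto_rpow_atTop (show 0 < α / 4 by positivity)).eventually_ge_atTop 130)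
  have hlK := t.eventually (Real.tendsto_log_atTop.eventually_gt_atTop (32 * |K|))
  filter_upwards [hlog, hlog2, hb1, hlK, eventually_ge_atTop N₀, eventually_ge_atTop 4] with
    N h1 h2 h3 h5 hN0 hN4
  have hNr : (4 : ℝ) ≤ N := by exact_mod_cast hN4
  have hNp : (0 : ℝ) < N := by linarith
  have hN1 : (1 : ℝ) ≤ N := by linarith
  have hl1 : 1 ≤ Real.log N :=
    Pool.Agent.Results.MP_188a10_nt.WeightedExceptional.log_ge_one (by omega)
  rw [Real.norm_of_nonneg (by linarith), one_mul, Real.norm_of_nonneg (by positivity)] at h1 h2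
  by_contra hcon
  push Not at hcon
  set X : ℝ := (N : ℝ) ^ α / Real.log (N : ℝ) ^ C₁ with hX
  have hlogC0 : 0 < Real.log (N : ℝ) ^ C₁ := by positivity
  have hlogC1 : 1 ≤ Real.log (N : ℝ) ^ C₁ := Real.one_le_rpow hl1 hC₁.le
  -- `X` is large
  have hlogC : Real.log N ^ C₁ ≤ (N : ℝ) ^ (α / 2) := by
    calc Real.log N ^ C₁ ≤ ((N : ℝ) ^ (α / (2 * C₁))) ^ C₁ :=
          Real.rpow_le_rpow (by linarith) h1 hC₁.le
      _ = (N : ℝ) ^ (α / 2) := by
          rw [← Real.rpow_mul hNp.le]
          congr 1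
          field_simp
  have hXbig : (N : ℝ) ^ (α / 4) * (N : ℝ) ^ (α / 4) ≤ X := by
    rw [hX, le_div_iff₀ hlogC0, ← Real.rpow_add hNp]
    calc (N : ℝ) ^ (α / 4 + α / 4) * Real.log (N : ℝ) ^ C₁ ≤
          (N : ℝ) ^ (α / 4 + α / 4) * (N : ℝ) ^ (α / 2) :=
          mul_le_mul_of_nonneg_left hlogC (by positivity)
      _ = (N : ℝ) ^ α := by
          rw [← Real.rpow_add hNp]
          congr 1
          ring
  have hXlog : 130 * Real.log N ≤ X := by
    refine le_trans ?_ hXbig
    exact mul_le_mul h3 h2 (by linarith) (by positivity)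
  have hX130 : 130 ≤ X := by linarith
  have hX0 : 0 < X := by linarith
  have hXN : X ≤ N := by
    calc X ≤ (N : ℝ) ^ α := div_le_self (by positivity) hlogC1
      _ ≤ (N : ℝ) ^ (1 : ℝ) := Real.rpow_le_rpow_of_exponent_le hN1 (by linarith)
      _ = N := Real.rpow_one _
  set D : ℕ := ⌊X / 2⌋₊ with hD
  have hDX : (D : ℝ) ≤ X / 2 := Nat.floor_le (by positivity)
  have hDX2 : X / 2 < D + 1 := Nat.lt_floor_add_one _
  have hD64 : 64 ≤ D := by
    rw [hD]
    exact Nat.le_floor (by push_cast; linarith)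
  have hDr : (64 : ℝ) ≤ D := by exact_mod_cast hD64
  have hDN : D ≤ N := by
    have : (D : ℝ) ≤ N := by linarith
    exact_mod_cast this
  -- the set of moduli
  set U : ℕ := (used w N).card with hU
  set G : Finset ℕ := (Icc 1 D).filter (fun d => d.Prime ∧ U + 1 < d) with hG
  have hGmis : ∀ d ∈ G, ∃ l : ℕ, Nat.Coprime l d ∧
      err w N d l = -((∫ t in (2 : ℝ)..(N : ℝ), 1 / Real.log t) / (Nat.totient d : ℝ)) := by
    intro d hd
    rw [hG, mem_filter] at hd
    exact missing hd.2.1 (by omega)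
  classical
  set l : ℕ → ℕ := fun d => if hd : d ∈ G then (hGmis d hd).choose else 1 with hl
  have hlco : ∀ d, Nat.Coprime (l d) d := by
    intro d
    simp only [hl]
    split_ifs with hd
    · exact (hGmis d hd).choose_spec.1
    · exact Nat.coprime_one_left d
  have hlerr : ∀ d ∈ G, err w N d (l d) =
      -((∫ t in (2 : ℝ)..(N : ℝ), 1 / Real.log t) / (Nat.totient d : ℝ)) := by
    intro d hd
    simp only [hl]
    rw [dif_pos hd]
    exact (hGmis d hd).choose_spec.2
  have hmain := hK N hN0 (fun _ => (N : ℝ)) l (fun _ => ⟨by linarith, le_rfl⟩) hlco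
  set I : ℝ := ∫ t in (2 : ℝ)..(N : ℝ), 1 / Real.log t with hI
  have hIl : (N : ℝ) / 2 / Real.log N ≤ I := li_lower hN4
  have hI0 : 0 < I := lt_of_lt_of_le (by positivity) hIl
  have hGF : G ⊆ (Icc (1 : ℕ) N).filter (fun d : ℕ => (d : ℝ) < X) := by
    intro d hd
    rw [hG, mem_filter, mem_Icc] at hd
    rw [mem_filter, mem_Icc]
    refine ⟨⟨hd.1.1, hd.1.2.trans hDN⟩, ?_⟩
    have : (d : ℝ) ≤ D := by exact_mod_cast hd.1.2
    linarith
  have hlow : (G.card : ℝ) * (I / X) ≤ K * (N : ℝ) / Real.log N ^ 3 := by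
    refine le_trans ?_ hmain
    refine le_trans ?_ (sum_le_sum_of_subset_of_nonneg hGF fun d _ _ => by positivity)
    rw [← nsmul_eq_mul]
    refine card_nsmul_le_sum _ _ _ fun d hd => ?_
    rw [hlerr d hd]
    rw [hG, mem_filter, mem_Icc] at hd
    have hdp := hd.2.1
    rw [ArithmeticFunction.moebius_apply_prime hdp, Nat.Prime.primeFactors hdp, card_singleton,
      abs_neg, Nat.totient_prime hdp]
    have hd2 := hdp.two_le
    have hd1 : (0 : ℝ) < ((d - 1 : ℕ) : ℝ) := by exact_mod_cast (by omega : 0 < d - 1)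
    have hdX : ((d - 1 : ℕ) : ℝ) ≤ X := by
      have : ((d - 1 : ℕ) : ℝ) ≤ D := by exact_mod_cast (by omega : d - 1 ≤ D)
      linarith
    rw [abs_of_pos (by positivity)]
    have h6 : I / X ≤ I / ((d - 1 : ℕ) : ℝ) := div_le_div_of_nonneg_left hI0.le hd1 hdX
    have h7 : 0 ≤ I / ((d - 1 : ℕ) : ℝ) := by positivity
    norm_num
    linarith
  -- many moduli
  have hGc : (((Icc 1 D).filter Nat.Prime).card : ℝ) ≤ (G.card : ℝ) + (U + 1) := by
    have h6 : (Icc 1 D).filter Nat.Prime ⊆ G ∪ Icc 1 (U + 1) := by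
      intro d hd
      rw [mem_filter, mem_Icc] at hd
      rw [mem_union, hG, mem_filter, mem_Icc, mem_Icc]
      by_cases h7 : U + 1 < d
      · exact Or.inl ⟨hd.1, hd.2, h7⟩
      · exact Or.inr ⟨hd.1.1, by omega⟩
    have h7 := (card_le_card h6).trans (card_union_le _ _)
    rw [Nat.card_Icc] at h7
    have h8 : ((Icc 1 D).filter Nat.Prime).card ≤ G.card + (U + 1) := by omega
    exact_mod_cast h8
  have hpi := pi_lower hD64
  have hlogD : Real.log D ≤ Real.log N := Real.log_le_log (by linarith) (by exact_mod_cast hDN)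
  have hlogD0 : 0 < Real.log D := Real.log_pos (by linarith)
  have h9 : (D : ℝ) / 2 / Real.log N ≤ (D : ℝ) / 2 / Real.log D :=
    div_le_div_of_nonneg_left (by positivity) hlogD0 hlogD
  have hXD : X / 4 ≤ D := by linarith
  have hU1 : (U : ℝ) + 1 ≤ X / 16 / Real.log N := by
    have e2 : (N : ℝ) ^ α / (32 * Real.log N ^ (C₁ + 1)) = X / 32 / Real.log N := by
      rw [hX, Real.rpow_add (by linarith), Real.rpow_one]
      field_simp
    rw [e2] at hcon
    have e3 : X / 16 / Real.log N = X / 32 / Real.log N + X / 32 / Real.log N := by ring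
    have e4 : 1 ≤ X / 32 / Real.log N := by
      rw [le_div_iff₀ (by linarith)]
      linarith
    linarith
  have hGbig : X / 16 / Real.log N ≤ G.card := by
    have h10 : X / 8 / Real.log N ≤ (D : ℝ) / 2 / Real.log N := by
      refine div_le_div_of_nonneg_right ?_ (by linarith)
      linarith
    have h11 : X / 8 / Real.log N = X / 16 / Real.log N + X / 16 / Real.log N := by ring
    linarith
  have hfin : (N : ℝ) / 32 / Real.log N ^ 2 ≤ (G.card : ℝ) * (I / X) := by
    calc (N : ℝ) / 32 / Real.log N ^ 2 = (X / 16 / Real.log N) * ((N : ℝ) / 2 / Real.log N / X) := by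
          field_simp
          norm_num
      _ ≤ (G.card : ℝ) * (I / X) := by
          refine mul_le_mul hGbig (div_le_div_of_nonneg_right hIl hX0.le) (by positivity)
            (Nat.cast_nonneg _)
  have h12 := hfin.trans hlow
  rw [div_le_div_iff₀ (by positivity) (by positivity)] at h12
  have h13 : (N : ℝ) / 32 * Real.log N ^ 3 = (N / 32 * Real.log N) * Real.log N ^ 2 := by ring
  rw [h13] at h12
  have h14 : (N : ℝ) / 32 * Real.log N ≤ K * N :=
    le_of_mul_le_mul_right h12 (by positivity)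
  have h15 : K ≤ |K| := le_abs_self K
  have h16 : 0 ≤ |K| := abs_nonneg K
  nlinarith

theorem optimal_rpow {w : ℕ → ℝ} {α : ℝ} (hα0 : 0 < α) (hα1 : α ≤ 1) (h : Admissible w α) {ε : ℝ}
    (hε : 0 < ε) : ∀ᶠ N : ℕ in atTop, (N : ℝ) ^ (α - ε) ≤ ((used w N).card : ℝ) := by
  obtain ⟨C₁, hC₁, hS⟩ := h
  have t := tendsto_natCast_atTop_atTop (R := ℝ)
  have hlog := t.eventually ((isLittleO_log_rpow_atTop
      (show 0 < ε / (2 * (C₁ + 1)) by positivity)).bound (show (0 : ℝ) < 1 by norm_num))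
  have hb1 := t.eventually ((tendsto_rpow_atTop (show 0 < ε / 2 by positivity)).eventually_ge_atTop 32)
  filter_upwards [optimal hα0 hα1 hC₁ hS, hlog, hb1, eventually_ge_atTop 3] with N hN h1 h2 hN3
  have hNr : (3 : ℝ) ≤ N := by exact_mod_cast hN3
  have hNp : (0 : ℝ) < N := by linarith
  have hl1 : 1 ≤ Real.log N :=
    Pool.Agent.Results.MP_188a10_nt.WeightedExceptional.log_ge_one (by omega)
  rw [Real.norm_of_nonneg (by linarith), one_mul, Real.norm_of_nonneg (by positivity)] at h1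
  refine le_trans ?_ hN
  rw [le_div_iff₀ (by positivity)]
  have hlogC : Real.log N ^ (C₁ + 1) ≤ (N : ℝ) ^ (ε / 2) := by
    calc Real.log N ^ (C₁ + 1) ≤ ((N : ℝ) ^ (ε / (2 * (C₁ + 1)))) ^ (C₁ + 1) :=
          Real.rpow_le_rpow (by linarith) h1 (by linarith)
      _ = (N : ℝ) ^ (ε / 2) := by
          rw [← Real.rpow_mul hNp.le]
          congr 1
          field_simp
  have e1 : (N : ℝ) ^ α = (N : ℝ) ^ (α - ε) * ((N : ℝ) ^ (ε / 2) * (N : ℝ) ^ (ε / 2)) := by
    rw [← Real.rpow_add hNp, ← Real.rpow_add hNp]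
    congr 1
    ring
  rw [e1]
  refine mul_le_mul_of_nonneg_left ?_ (by positivity)
  exact mul_le_mul h2 hlogC (by positivity) (by positivity)

end Pool.Agent.H564.LD
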